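import Mathlib
import Pool.Agent.H54.TS.Defs
import Pool.Agent.H54.TS.Main

set_option autoImplicit false

universe u v

namespace Pool.Agent.Results.MP_4b578b_co.Classification

open Pool.Agent.H54.TS

/-- **Theorem.** A finite triple system is forced (contained in every triple system of
uncountable chromatic number) if and only if it belongs to the smallest class of triple systems
which contains the expansions of bipartite graphs and is closed under unions of two systems with
at most one common vertex. -/
theorem result {W : Type v} [Finite W] (F : TripleSystem W) :
    TripleSystem.Forced.{u} F ↔ Good F.triples :=
  classification F

end Pool.Agent.Results.MP_4b578b_co.Classification
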